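import Mathlib

open Set Metric MeasureTheory
open scoped InnerProductSpace

namespace Pool.Agent.Results.MP_39a3b1_gt.NotBall

def cone {n : ℕ} (K : Set (EuclideanSpace ℝ (Fin n))) (x : EuclideanSpace ℝ (Fin n)) :
    Set (EuclideanSpace ℝ (Fin n)) :=
  {z | ∃ y ∈ K, ∃ l : ℝ, 0 ≤ l ∧ z = x + l • (y - x)}

def perp {n : ℕ} (x : EuclideanSpace ℝ (Fin n)) : Set (EuclideanSpace ℝ (Fin n)) :=
  {z | ⟪z, x⟫_ℝ = 0}

def Ell {n : ℕ} (e : EuclideanSpace ℝ (Fin n)) : Set (EuclideanSpace ℝ (Fin n)) :=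
  {y | 2 * ⟪y, y⟫_ℝ + 2 * ⟪e, y⟫_ℝ ^ 2 ≤ 1}

theorem ell_norm {n : ℕ} {e y : EuclideanSpace ℝ (Fin n)} (hy : y ∈ Ell e) : ‖y‖ < 1 := by
  have h : 2 * ⟪y, y⟫_ℝ + 2 * ⟪e, y⟫_ℝ ^ 2 ≤ 1 := hy
  rw [real_inner_self_eq_norm_sq] at h
  nlinarith [sq_nonneg ⟪e, y⟫_ℝ, norm_nonneg y]

theorem mem_proj {n : ℕ} (e x z : EuclideanSpace ℝ (Fin n)) (hx : ‖x‖ = 1) :
    z ∈ cone (Ell e) x ∩ perp x ↔ ⟪z, x⟫_ℝ = 0 ∧
      (1 + 2 * ⟪e, x⟫_ℝ ^ 2) * (2 * ⟪z, z⟫_ℝ + 2 * ⟪e, z⟫_ℝ ^ 2) - (2 * ⟪e, x⟫_ℝ * ⟪e, z⟫_ℝ) ^ 2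
        + 2 * (2 * ⟪e, x⟫_ℝ * ⟪e, z⟫_ℝ) - (2 + 2 * ⟪e, x⟫_ℝ ^ 2) ≤ 0 := by
  have hxx : ⟪x, x⟫_ℝ = 1 := by rw [real_inner_self_eq_norm_sq, hx]; norm_num
  have key : ∀ m : ℝ, ⟪z, x⟫_ℝ = 0 → (x + m • (z - x) ∈ Ell e ↔
      2 * ((1 - m) ^ 2 + m ^ 2 * ⟪z, z⟫_ℝ) + 2 * ((1 - m) * ⟪e, x⟫_ℝ + m * ⟪e, z⟫_ℝ) ^ 2 ≤ 1) := by
    intro m hz
    have hz' : ⟪x, z⟫_ℝ = 0 := by rw [real_inner_comm]; exact hz
    have e1 : ⟪x + m • (z - x), x + m • (z - x)⟫_ℝ = (1 - m) ^ 2 + m ^ 2 * ⟪z, z⟫_ℝ := by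
      simp only [inner_add_left, inner_add_right, inner_smul_left, inner_smul_right, inner_sub_left,
        inner_sub_right, hxx, hz, hz', conj_trivial]
      ring
    have e2 : ⟪e, x + m • (z - x)⟫_ℝ = (1 - m) * ⟪e, x⟫_ℝ + m * ⟪e, z⟫_ℝ := by
      simp only [inner_add_right, inner_smul_right, inner_sub_right]
      ring
    simp only [Ell, mem_setOf_eq]
    rw [e1, e2]
  have hzz : 0 ≤ ⟪z, z⟫_ℝ := real_inner_self_nonneg
  generalize ⟪e, x⟫_ℝ = s at key ⊢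
  generalize ⟪e, z⟫_ℝ = t at key ⊢
  generalize ⟪z, z⟫_ℝ = w at key hzz ⊢
  have hD : 0 < 2 + 2 * w + 2 * (t - s) ^ 2 := by positivity
  constructor
  · rintro ⟨⟨y, hy, l, hl, hzl⟩, hz⟩
    have hz : ⟪z, x⟫_ℝ = 0 := hz
    refine ⟨hz, ?_⟩
    have hl0 : l ≠ 0 := by
      rintro rfl
      rw [zero_smul, add_zero] at hzl
      rw [hzl, hxx] at hz
      norm_num at hz
    have : y = x + l⁻¹ • (z - x) := by
      rw [hzl, add_sub_cancel_left, smul_smul, inv_mul_cancel₀ hl0, one_smul, add_sub_cancel]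
    rw [this, key _ hz] at hy
    generalize l⁻¹ = m at hy
    have h1 := mul_le_mul_of_nonneg_left hy hD.le
    nlinarith [sq_nonneg ((2 + 2 * w + 2 * (t - s) ^ 2) * m + (2 * s * t - (2 + 2 * s ^ 2)))]
  · rintro ⟨hz, h⟩
    refine ⟨?_, hz⟩
    set m := ((2 + 2 * s ^ 2) - 2 * s * t) / (2 + 2 * w + 2 * (t - s) ^ 2) with hm
    have hm' : m * (2 + 2 * w + 2 * (t - s) ^ 2) = (2 + 2 * s ^ 2) - 2 * s * t := by
      rw [hm, div_mul_cancel₀ _ hD.ne']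
    have hy : 2 * ((1 - m) ^ 2 + m ^ 2 * w) + 2 * ((1 - m) * s + m * t) ^ 2 ≤ 1 := by
      refine le_of_mul_le_mul_left ?_ hD
      have : (2 + 2 * w + 2 * (t - s) ^ 2) *
          (2 * ((1 - m) ^ 2 + m ^ 2 * w) + 2 * ((1 - m) * s + m * t) ^ 2) =
          (m * (2 + 2 * w + 2 * (t - s) ^ 2)) ^ 2
            - 2 * (m * (2 + 2 * w + 2 * (t - s) ^ 2)) * ((2 + 2 * s ^ 2) - 2 * s * t)
            + (2 + 2 * s ^ 2) * (2 + 2 * w + 2 * (t - s) ^ 2) := by ring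
      rw [this, hm']
      nlinarith
    have hm0 : 0 < m := by
      by_contra hc
      have hc := not_lt.1 hc
      nlinarith [sq_nonneg ((1 - m) * s + m * t), mul_nonneg (sq_nonneg m) hzz, sq_nonneg m]
    refine ⟨_, (key m hz).2 hy, m⁻¹, by positivity, ?_⟩
    rw [add_sub_cancel_left, smul_smul, inv_mul_cancel₀ hm0.ne', one_smul, add_sub_cancel]

theorem transl {n : ℕ} (e x : EuclideanSpace ℝ (Fin n)) (he : ‖e‖ = 1) (hx : ‖x‖ = 1) :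
    ∃ v ∈ perp x, cone (Ell e) (-x) ∩ perp x = (fun z => z + v) '' (cone (Ell e) x ∩ perp x) := by
  have hxx : ⟪x, x⟫_ℝ = 1 := by rw [real_inner_self_eq_norm_sq, hx]; norm_num
  have hee : ⟪e, e⟫_ℝ = 1 := by rw [real_inner_self_eq_norm_sq, he]; norm_num
  have hxe : ⟪x, e⟫_ℝ = ⟪e, x⟫_ℝ := real_inner_comm _ _
  have hp : perp (-x) = perp x := by
    ext z; simp [perp]
  set s := ⟪e, x⟫_ℝ with hs
  have hD : 0 < 2 + s ^ 2 := by positivity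
  obtain ⟨k, hk⟩ : ∃ k : ℝ, k * (2 + s ^ 2) = 2 * s := ⟨2 * s / (2 + s ^ 2), div_mul_cancel₀ _ hD.ne'⟩
  refine ⟨k • (e - s • x), ?_, ?_⟩
  · simp only [perp, mem_setOf_eq, inner_smul_left, inner_sub_left, hxx, ← hs, conj_trivial]
    ring
  rw [image_add_right]
  ext z
  rw [← hp, mem_proj e (-x) z (by simpa using hx), mem_preimage, hp, mem_proj e x _ hx]
  have hze : ⟪z, e⟫_ℝ = ⟪e, z⟫_ℝ := real_inner_comm _ _
  have hxz : ⟪x, z⟫_ℝ = ⟪z, x⟫_ℝ := real_inner_comm _ _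
  simp only [inner_neg_right, inner_neg_left, inner_add_left, inner_add_right, inner_smul_left,
    inner_smul_right, inner_sub_left, inner_sub_right, hxx, hee, hxe, hze, hxz, ← hs, conj_trivial,
    neg_eq_zero]
  have h0 : ⟪z, x⟫_ℝ + -(k * (s - s * 1)) = ⟪z, x⟫_ℝ := by ring
  rw [h0]
  refine and_congr_right fun hz => ?_
  rw [hz]
  generalize ⟪e, z⟫_ℝ = t
  generalize ⟪z, z⟫_ℝ = w
  refine Iff.of_eq (congrArg (· ≤ (0 : ℝ)) ?_)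
  linear_combination (4 * t - 2 * k * (1 - s ^ 2)) * hk

theorem result (n : ℕ) (hn : 2 ≤ n) :
    ∃ K : Set (EuclideanSpace ℝ (Fin n)),
      IsCompact K ∧ Convex ℝ K ∧ (interior K).Nonempty ∧ K ⊆ ball 0 1 ∧
        (∀ x : EuclideanSpace ℝ (Fin n), ‖x‖ = 1 →
          (∃ v ∈ perp x, cone K (-x) ∩ perp x = (fun z => z + v) '' (cone K x ∩ perp x)) ∧
          μH[(n : ℝ) - 1] (cone K (-x) ∩ perp x) = μH[(n : ℝ) - 1] (cone K x ∩ perp x)) ∧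
        ∀ (c : EuclideanSpace ℝ (Fin n)) (r : ℝ), K ≠ closedBall c r := by
  let i0 : Fin n := ⟨0, by omega⟩
  let i1 : Fin n := ⟨1, by omega⟩
  let e : EuclideanSpace ℝ (Fin n) := EuclideanSpace.single i0 1
  let f : EuclideanSpace ℝ (Fin n) := EuclideanSpace.single i1 1
  have he : ‖e‖ = 1 := by simp [e]
  have hf : ‖f‖ = 1 := by simp [f]
  have hee : ⟪e, e⟫_ℝ = 1 := by rw [real_inner_self_eq_norm_sq, he]; norm_num
  have hff : ⟪f, f⟫_ℝ = 1 := by rw [real_inner_self_eq_norm_sq, hf]; norm_num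
  have hef : ⟪e, f⟫_ℝ = 0 := by
    simp [e, f, EuclideanSpace.inner_single_left, i0, i1, Fin.ext_iff]
  have hsub : Ell e ⊆ ball 0 1 := fun y hy => mem_ball_zero_iff.2 (ell_norm hy)
  refine ⟨Ell e, ?_, ?_, ⟨0, ?_⟩, hsub, fun x hx => ?_, fun c r h => ?_⟩
  · refine isCompact_of_isClosed_isBounded (isClosed_le (by fun_prop) continuous_const) ?_
    exact isBounded_ball.subset hsub
  · intro y hy z hz a b ha hb hab
    have hy : 2 * ⟪y, y⟫_ℝ + 2 * ⟪e, y⟫_ℝ ^ 2 ≤ 1 := hy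
    have hz : 2 * ⟪z, z⟫_ℝ + 2 * ⟪e, z⟫_ℝ ^ 2 ≤ 1 := hz
    show 2 * _ + 2 * _ ^ 2 ≤ (1 : ℝ)
    have h1 : 0 ≤ ⟪y - z, y - z⟫_ℝ := real_inner_self_nonneg
    have hzy : ⟪z, y⟫_ℝ = ⟪y, z⟫_ℝ := real_inner_comm _ _
    simp only [inner_add_left, inner_add_right, inner_smul_left, inner_smul_right, inner_sub_left,
      inner_sub_right, hzy, conj_trivial] at h1 ⊢
    obtain rfl : b = 1 - a := by linarith
    nlinarith [mul_nonneg (mul_nonneg ha hb) h1, mul_nonneg (mul_nonneg ha hb)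
      (sq_nonneg (⟪e, y⟫_ℝ - ⟪e, z⟫_ℝ)), mul_le_mul_of_nonneg_left hy ha,
      mul_le_mul_of_nonneg_left hz hb]
  · have ho : IsOpen {y : EuclideanSpace ℝ (Fin n) | 2 * ⟪y, y⟫_ℝ + 2 * ⟪e, y⟫_ℝ ^ 2 < 1} :=
      isOpen_lt (by fun_prop) continuous_const
    have hs : {y : EuclideanSpace ℝ (Fin n) | 2 * ⟪y, y⟫_ℝ + 2 * ⟪e, y⟫_ℝ ^ 2 < 1} ⊆ Ell e :=
      fun y hy => le_of_lt (show 2 * ⟪y, y⟫_ℝ + 2 * ⟪e, y⟫_ℝ ^ 2 < 1 from hy)
    refine interior_maximal hs ho ?_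
    simp
  · obtain ⟨v, hv, h⟩ := transl e x he hx
    refine ⟨⟨v, hv, h⟩, ?_⟩
    rw [h]
    refine (isometry_add_right v).hausdorffMeasure_image (Or.inl ?_) _
    have : (2 : ℝ) ≤ n := by exact_mod_cast hn
    linarith
  · have m1 : (7 / 10 : ℝ) • f ∈ Ell e := by
      show 2 * _ + 2 * _ ^ 2 ≤ (1 : ℝ)
      simp only [inner_smul_left, inner_smul_right, hff, hef, conj_trivial]
      norm_num
    have m2 : (-(7 / 10) : ℝ) • f ∈ Ell e := by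
      show 2 * _ + 2 * _ ^ 2 ≤ (1 : ℝ)
      simp only [inner_smul_left, inner_smul_right, hff, hef, conj_trivial]
      norm_num
    rw [h] at m1 m2
    have hr : 7 / 10 ≤ r := by
      have h1 := dist_triangle_right ((7 / 10 : ℝ) • f) ((-(7 / 10) : ℝ) • f) c
      rw [dist_eq_norm, ← sub_smul, norm_smul, hf] at h1
      rw [mem_closedBall] at m1 m2
      have h2 : ‖(7 / 10 : ℝ) - -(7 / 10)‖ * 1 = 7 / 5 := by norm_num
      rw [h2] at h1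
      linarith
    have hb : ∀ y ∈ Ell e, |⟪e, y⟫_ℝ| ≤ 1 / 2 := by
      intro y hy
      have hy : 2 * ⟪y, y⟫_ℝ + 2 * ⟪e, y⟫_ℝ ^ 2 ≤ 1 := hy
      have h1 := abs_real_inner_le_norm e y
      rw [he, one_mul] at h1
      rw [real_inner_self_eq_norm_sq] at hy
      have h2 : ⟪e, y⟫_ℝ ^ 2 ≤ ‖y‖ ^ 2 := sq_le_sq' (by linarith [neg_abs_le ⟪e, y⟫_ℝ]) (le_of_abs_le h1)
      rw [abs_le]
      constructor <;> nlinarith
    have p1 := hb (c + r • e) (by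
      rw [h, mem_closedBall, dist_eq_norm, add_sub_cancel_left, norm_smul, he, Real.norm_of_nonneg
        (by linarith), mul_one])
    have p2 := hb (c + (-r) • e) (by
      rw [h, mem_closedBall, dist_eq_norm, add_sub_cancel_left, norm_smul, he, norm_neg,
        Real.norm_of_nonneg (by linarith), mul_one])
    simp only [inner_add_right, inner_smul_right, hee] at p1 p2
    rw [abs_le] at p1 p2
    linarith [p1.2, p2.1]

end Pool.Agent.Results.MP_39a3b1_gt.NotBall
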